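import Mathlib

/-!
# MP_349597_co: eternal domination versus clique cover in the prism

There is a graph `G` on eleven vertices with `θ(G) = γ^∞(G) = 4`, but
`γ^∞(G □ K₂) ≤ 7 < 8 ≤ θ(G □ K₂)`. So Q1 has a negative answer.

The graph `G` consists of a graph `G₀` on the vertices `0, ..., 9` without a `K₄` in which all
dominating sets of size three form an eternal family, and of a vertex `10` adjacent only to `0`.
-/

set_option autoImplicit false

namespace Pool.Agent.Results.MP_349597_co.PendantPrism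

open Finset

/-- `D` is a dominating set of `G`: every vertex lies in `D` or has a neighbour in `D`. -/
def IsDominating {V : Type} (G : SimpleGraph V) (D : Finset V) : Prop :=
  ∀ v, v ∈ D ∨ ∃ u ∈ D, G.Adj v u

/-- `F` is an eternal family of `k`-element dominating sets of `G`: it is nonempty and, for every
`D ∈ F` and `v ∉ D`, there is a neighbour `u ∈ D` of `v` with `(D \ {u}) ∪ {v} ∈ F`. -/
def IsEternalFamily {V : Type} [DecidableEq V] (G : SimpleGraph V) (k : ℕ)
    (F : Set (Finset V)) : Prop :=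
  F.Nonempty ∧ (∀ D ∈ F, D.card = k ∧ IsDominating G D) ∧
    ∀ D ∈ F, ∀ v, v ∉ D → ∃ u ∈ D, G.Adj v u ∧ (D \ {u}) ∪ {v} ∈ F

/-- The eternal domination number `γ^∞(G)`: the least `k ≥ 1` for which an eternal family of
`k`-element dominating sets exists. -/
noncomputable def eternalNum {V : Type} [DecidableEq V] (G : SimpleGraph V) : ℕ :=
  sInf {k | 1 ≤ k ∧ ∃ F, IsEternalFamily G k F}

/-- The clique cover number `θ(G)`: the least number of cliques whose vertex sets partition the
vertex set. -/
noncomputable def cliqueCover {V : Type} [Fintype V] [DecidableEq V] (G : SimpleGraph V) : ℕ :=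
  sInf {k | ∃ P : Finpartition (univ : Finset V), P.parts.card = k ∧
    ∀ A ∈ P.parts, G.IsClique (A : Set V)}

/-! ### General facts -/

section general

variable {V : Type} [DecidableEq V]

/-- An eternal family of `k`-sets and an independent set `I` satisfy `|I| ≤ k`. -/
theorem indep_le {G : SimpleGraph V} {k : ℕ} {F : Set (Finset V)} (hF : IsEternalFamily G k F)
    (I : Finset V) (hI : ∀ a ∈ I, ∀ b ∈ I, ¬ G.Adj a b) : I.card ≤ k := by
  obtain ⟨⟨D0, hD0⟩, h1, h2⟩ := hF
  have key : ∀ m ≤ I.card, ∃ D ∈ F, m ≤ (D ∩ I).card := by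
    intro m
    induction m with
    | zero => exact fun _ => ⟨D0, hD0, Nat.zero_le _⟩
    | succ m ih =>
      intro hm
      obtain ⟨D, hD, hDm⟩ := ih (by omega)
      by_cases hlt : m + 1 ≤ (D ∩ I).card
      · exact ⟨D, hD, hlt⟩
      · obtain ⟨v, hvI, hvD⟩ : ∃ v ∈ I, v ∉ D := by
          by_contra hcon
          push Not at hcon
          have : D ∩ I = I := inter_eq_right.2 (fun x hx => hcon x hx)
          rw [this] at hlt
          omega
        obtain ⟨u, huD, huv, hu⟩ := h2 D hD v hvD
        refine ⟨_, hu, ?_⟩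
        have huI : u ∉ I := fun h => hI v hvI u h huv
        have hsub : insert v (D ∩ I) ⊆ ((D \ {u}) ∪ {v}) ∩ I := by
          intro x hx
          rw [mem_insert] at hx
          rcases hx with rfl | hx
          · simp [hvI]
          · rw [mem_inter] at hx
            have hxu : x ≠ u := by
              rintro rfl
              exact huI hx.2
            simp [hx.1, hx.2, hxu]
        have := card_le_card hsub
        rw [card_insert_of_notMem (by simp [hvD])] at this
        omega
  obtain ⟨D, hD, h⟩ := key I.card le_rfl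
  exact h.trans ((card_le_card inter_subset_left).trans (h1 D hD).1.le)

/-- A map to `Fin k` whose fibres are nonempty cliques gives an eternal family of `k`-sets. -/
theorem exists_family_of_cliques {G : SimpleGraph V} {k : ℕ} (f : V → Fin k)
    (g : Fin k → V) (hg : ∀ i, f (g i) = i) (hf : ∀ u v, u ≠ v → f u = f v → G.Adj u v) :
    ∃ F, IsEternalFamily G k F := by
  classical
  refine ⟨{D | ∀ i, ∃! u, u ∈ D ∧ f u = i}, ?_, ?_, ?_⟩
  · refine ⟨univ.image g, fun i => ⟨g i, ⟨mem_image_of_mem _ (mem_univ _), hg i⟩, ?_⟩⟩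
    rintro u ⟨hu, rfl⟩
    obtain ⟨j, -, rfl⟩ := mem_image.1 hu
    rw [hg]
  · intro D hD
    constructor
    · have : D.card = (univ : Finset (Fin k)).card := by
        refine card_bij (fun u _ => f u) (fun _ _ => mem_univ _) ?_ ?_
        · intro a ha b hb hab
          exact (hD (f b)).unique ⟨ha, hab⟩ ⟨hb, rfl⟩
        · intro i _
          obtain ⟨u, ⟨hu, hui⟩, -⟩ := hD i
          exact ⟨u, hu, hui⟩
      simpa using this
    · intro v
      obtain ⟨u, ⟨hu, hui⟩, -⟩ := hD (f v)
      by_cases h : v = u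
      · exact Or.inl (h ▸ hu)
      · exact Or.inr ⟨u, hu, hf v u h hui.symm⟩
  · intro D hD v hv
    obtain ⟨u, ⟨hu, hui⟩, huu⟩ := hD (f v)
    have hvu : v ≠ u := fun h => hv (h ▸ hu)
    refine ⟨u, hu, hf v u hvu hui.symm, fun i => ?_⟩
    by_cases hi : i = f v
    · refine ⟨v, ⟨by simp, hi.symm⟩, ?_⟩
      rintro w ⟨hw, hwi⟩
      simp only [mem_union, mem_sdiff, mem_singleton] at hw
      rcases hw with ⟨hwD, hwu⟩ | hw
      · exact absurd (huu w ⟨hwD, hwi.trans hi⟩) hwu
      · exact hw
    · obtain ⟨w, ⟨hw, hwi⟩, hwu⟩ := hD i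
      refine ⟨w, ⟨?_, hwi⟩, ?_⟩
      · have : w ≠ u := by
          rintro rfl
          exact hi (hwi.symm.trans hui)
        simp [hw, this]
      · rintro x ⟨hx, hxi⟩
        simp only [mem_union, mem_sdiff, mem_singleton] at hx
        rcases hx with ⟨hxD, -⟩ | rfl
        · exact hwu x ⟨hxD, hxi⟩
        · exact absurd hxi.symm hi

/-- If every clique has at most three vertices, a partition into cliques has at least `|V| / 3`
parts. -/
theorem card_le_of_partition [Fintype V] {G : SimpleGraph V}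
    (h3 : ∀ A : Finset V, G.IsClique (A : Set V) → A.card ≤ 3)
    (P : Finpartition (univ : Finset V)) (hP : ∀ A ∈ P.parts, G.IsClique (A : Set V)) :
    Fintype.card V ≤ 3 * P.parts.card := by
  have h := P.sum_card_parts
  rw [card_univ] at h
  rw [← h, mul_comm]
  calc ∑ A ∈ P.parts, A.card ≤ ∑ _A ∈ P.parts, 3 := sum_le_sum fun A hA => h3 A (hP A hA)
    _ = P.parts.card * 3 := by rw [sum_const, smul_eq_mul]

theorem clique_le_three {G : SimpleGraph V}
    (h : ∀ a b, G.Adj a b → ∀ c, G.Adj a c → G.Adj b c → ∀ d, G.Adj a d → G.Adj b d →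
      ¬ G.Adj c d) (A : Finset V) (hA : G.IsClique (A : Set V)) : A.card ≤ 3 := by
  by_contra hcon
  obtain ⟨B, hBA, hB⟩ := exists_subset_card_eq (show 4 ≤ A.card by omega)
  obtain ⟨a, C, haC, rfl, hC⟩ := card_eq_succ.1 hB
  obtain ⟨b, c, d, hbc, hbd, hcd, rfl⟩ := card_eq_three.1 hC
  simp only [mem_insert, mem_singleton, not_or] at haC
  have ha : a ∈ A := hBA (by simp)
  have hb : b ∈ A := hBA (by simp)
  have hc : c ∈ A := hBA (by simp)
  have hd : d ∈ A := hBA (by simp)
  exact h a b (hA ha hb haC.1) c (hA ha hc haC.2.1) (hA hb hc hbc) d (hA ha hd haC.2.2)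
    (hA hb hd hbd) (hA hc hd hcd)

/-- A map to `Fin k` whose fibres are nonempty cliques gives a partition into `k` cliques. -/
theorem exists_partition [Fintype V] {G : SimpleGraph V} {k : ℕ} (f : V → Fin k)
    (g : Fin k → V) (hg : ∀ i, f (g i) = i) (hf : ∀ u v, u ≠ v → f u = f v → G.Adj u v) :
    ∃ P : Finpartition (univ : Finset V), P.parts.card = k ∧
      ∀ A ∈ P.parts, G.IsClique (A : Set V) := by
  classical
  have hinj : Function.Injective fun i : Fin k => univ.filter fun v => f v = i := by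
    intro i j hij
    have : g i ∈ univ.filter fun v => f v = i := by simp [hg]
    rw [show (univ.filter fun v => f v = i) = univ.filter fun v => f v = j from hij] at this
    simpa [hg] using this
  refine ⟨Finpartition.ofExistsUnique
    (univ.image fun i : Fin k => univ.filter fun v => f v = i) (fun _ _ => subset_univ _) ?_ ?_,
    ?_, ?_⟩
  · intro v _
    refine ⟨univ.filter fun w => f w = f v, ⟨mem_image_of_mem _ (mem_univ _), by simp⟩, ?_⟩
    rintro A ⟨hA, hvA⟩
    obtain ⟨i, -, rfl⟩ := mem_image.1 hA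
    simp only [mem_filter, mem_univ, true_and] at hvA
    rw [hvA]
  · intro h
    obtain ⟨i, -, hi⟩ := mem_image.1 h
    have : g i ∈ univ.filter fun v => f v = i := by simp [hg]
    rw [hi] at this
    exact absurd this (notMem_empty _)
  · change (univ.image fun i : Fin k => univ.filter fun v => f v = i).card = k
    rw [card_image_of_injective _ hinj, card_univ, Fintype.card_fin]
  · intro A hA
    obtain ⟨i, -, rfl⟩ := mem_image.1 hA
    intro u hu v hv huv
    simp only [coe_filter, mem_univ, true_and, Set.mem_ofPred_eq] at hu hv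
    exact hf u v huv (hu.trans hv.symm)

end general

/-! ### The graph -/

/-- The adjacency lists (as bit masks) of the graph `G₀` on `Fin 10`. -/
def nb0 : Fin 10 → ℕ := ![
  2^3 + 2^6 + 2^7 + 2^8 + 2^9,
  2^2 + 2^5 + 2^7 + 2^8 + 2^9,
  2^1 + 2^4 + 2^6 + 2^8 + 2^9,
  2^0 + 2^4 + 2^5 + 2^8 + 2^9,
  2^2 + 2^3 + 2^5 + 2^6 + 2^9,
  2^1 + 2^3 + 2^4 + 2^7 + 2^8,
  2^0 + 2^2 + 2^4 + 2^7 + 2^8,
  2^0 + 2^1 + 2^5 + 2^6 + 2^9,
  2^0 + 2^1 + 2^2 + 2^3 + 2^5 + 2^6,
  2^0 + 2^1 + 2^2 + 2^3 + 2^4 + 2^7]

/-- adjacency of `G₀` -/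
def adj0 (a b : Fin 10) : Bool := (nb0 a).testBit b

/-- The adjacency lists (as bit masks) of the graph `G` on `Fin 11`: the graph `G₀` and the
vertex `10` adjacent to `0`. -/
def nb : Fin 11 → ℕ := ![
  2^3 + 2^6 + 2^7 + 2^8 + 2^9 + 2^10,
  2^2 + 2^5 + 2^7 + 2^8 + 2^9,
  2^1 + 2^4 + 2^6 + 2^8 + 2^9,
  2^0 + 2^4 + 2^5 + 2^8 + 2^9,
  2^2 + 2^3 + 2^5 + 2^6 + 2^9,
  2^1 + 2^3 + 2^4 + 2^7 + 2^8,
  2^0 + 2^2 + 2^4 + 2^7 + 2^8,
  2^0 + 2^1 + 2^5 + 2^6 + 2^9,
  2^0 + 2^1 + 2^2 + 2^3 + 2^5 + 2^6,
  2^0 + 2^1 + 2^2 + 2^3 + 2^4 + 2^7,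
  2^0]

/-- adjacency of `G` -/
def adj (a b : Fin 11) : Bool := (nb a).testBit b

/-- The graph `G` on eleven vertices. -/
def gr : SimpleGraph (Fin 11) where
  Adj a b := adj a b = true
  symm := ⟨by decide⟩
  loopless := ⟨by decide⟩

instance : DecidableRel gr.Adj := fun a b => inferInstanceAs (Decidable (adj a b = true))

theorem gr_clique (A : Finset (Fin 11)) (hA : gr.IsClique (A : Set (Fin 11))) : A.card ≤ 3 :=
  clique_le_three (by decide) A hA

/-- the map to the four cliques `{0, 10}, {1, 5, 7}, {2, 6, 8}, {3, 4, 9}` -/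
def col : Fin 11 → Fin 4 := ![0, 1, 2, 3, 3, 1, 2, 1, 2, 3, 0]

/-- representatives of the four cliques -/
def rep : Fin 4 → Fin 11 := ![0, 1, 2, 3]

theorem cliqueCover_gr : cliqueCover gr = 4 := by
  have hmem : 4 ∈ {k | ∃ P : Finpartition (univ : Finset (Fin 11)), P.parts.card = k ∧
      ∀ A ∈ P.parts, gr.IsClique (A : Set (Fin 11))} :=
    exists_partition col rep (by decide) (by decide)
  apply le_antisymm (Nat.sInf_le hmem)
  refine le_csInf ⟨4, hmem⟩ ?_
  rintro k ⟨P, rfl, hP⟩
  have := card_le_of_partition gr_clique P hP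
  rw [Fintype.card_fin] at this
  omega

theorem eternalNum_gr : eternalNum gr = 4 := by
  have hmem : 4 ∈ {k | 1 ≤ k ∧ ∃ F, IsEternalFamily gr k F} :=
    ⟨by norm_num, exists_family_of_cliques col rep (by decide) (by decide)⟩
  apply le_antisymm (Nat.sInf_le hmem)
  refine le_csInf ⟨4, hmem⟩ ?_
  rintro k ⟨-, F, hF⟩
  exact indep_le hF {1, 3, 6, 10} (by decide)

/-! ### The prism -/

/-- The prism `G □ K₂`. -/
abbrev prism : SimpleGraph (Fin 11 × Fin 2) := gr □ (⊤ : SimpleGraph (Fin 2))

theorem prism_clique (A : Finset (Fin 11 × Fin 2))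
    (hA : prism.IsClique (A : Set (Fin 11 × Fin 2))) : A.card ≤ 3 := by
  have key : ∀ (a b c d : Fin 11), gr.Adj a b → gr.Adj a c → gr.Adj b c → gr.Adj a d →
      gr.Adj b d → ¬ gr.Adj c d := by
    have : ∀ a b, gr.Adj a b → ∀ c, gr.Adj a c → gr.Adj b c → ∀ d, gr.Adj a d → gr.Adj b d →
      ¬ gr.Adj c d := by decide
    exact fun a b c d h1 h2 h3 h4 h5 => this a b h1 c h2 h3 d h4 h5
  refine clique_le_three ?_ A hA
  rintro ⟨a, i⟩ ⟨b, j⟩ hab ⟨c, k⟩ hac hbc ⟨d, l⟩ had hbd hcd
  simp only [SimpleGraph.boxProd_adj, SimpleGraph.top_adj] at hab hac hbc had hbd hcd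
  have hirr : ∀ x : Fin 11, ¬ gr.Adj x x := fun x h => h.ne rfl
  fin_cases i <;> fin_cases j <;> fin_cases k <;> fin_cases l <;> simp at hab hac hbc had hbd hcd
  all_goals first
    | exact key a b c d hab hac hbc had hbd hcd
    | (subst_vars; simp_all)

theorem eight_le : 8 ≤ cliqueCover prism := by
  unfold cliqueCover
  refine le_csInf ?_ ?_
  · exact ⟨11, exists_partition (fun p => p.1) (fun x => (x, 0)) (fun _ => rfl) (by
      rintro ⟨a, i⟩ ⟨b, j⟩ hne hab
      simp only at hab
      subst hab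
      simp only [SimpleGraph.boxProd_adj, SimpleGraph.top_adj]
      right
      exact ⟨fun h => hne (by rw [h]), trivial⟩)⟩
  · rintro k ⟨P, rfl, hP⟩
    have := card_le_of_partition prism_clique P hP
    simp only [Fintype.card_prod, Fintype.card_fin] at this
    omega

/-- closed neighbourhoods in `G₀` -/
def cl (a : Fin 10) : ℕ := nb0 a + 2 ^ (a : ℕ)

/-- `a, b, c` dominate `G₀` -/
def dom3 (a b c : Fin 10) : Bool := (cl a ||| cl b ||| cl c) == 1023

/-- dominating sets of `G₀` of size three -/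
def Good (D : Finset (Fin 10)) : Prop :=
  ∃ a b c, a ≠ b ∧ a ≠ c ∧ b ≠ c ∧ dom3 a b c = true ∧ D = {a, b, c}

theorem step3 : ∀ a b c : Fin 10, a ≠ b → a ≠ c → b ≠ c → dom3 a b c = true →
    ∀ v, v ≠ a → v ≠ b → v ≠ c → (adj0 v a = true ∧ dom3 v b c = true) ∨
      (adj0 v b = true ∧ dom3 a v c = true) ∨ (adj0 v c = true ∧ dom3 a b v = true) := by
  decide +kernel

theorem dom3_spec : ∀ a b c : Fin 10, dom3 a b c = true →
    ∀ v, v = a ∨ v = b ∨ v = c ∨ adj0 v a = true ∨ adj0 v b = true ∨ adj0 v c = true := by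
  decide +kernel

theorem good_card {D : Finset (Fin 10)} (h : Good D) : D.card = 3 := by
  obtain ⟨a, b, c, h1, h2, h3, -, rfl⟩ := h
  exact card_eq_three.2 ⟨a, b, c, h1, h2, h3, rfl⟩

theorem good_dom {D : Finset (Fin 10)} (h : Good D) (v : Fin 10) :
    v ∈ D ∨ ∃ u ∈ D, adj0 v u = true := by
  obtain ⟨a, b, c, h1, h2, h3, h4, rfl⟩ := h
  rcases dom3_spec a b c h4 v with h | h | h | h | h | h
  · left; simp [h]
  · left; simp [h]
  · left; simp [h]
  · exact Or.inr ⟨a, by simp, h⟩
  · exact Or.inr ⟨b, by simp, h⟩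
  · exact Or.inr ⟨c, by simp, h⟩

theorem good_step {D : Finset (Fin 10)} (h : Good D) (v : Fin 10) (hv : v ∉ D) :
    ∃ u ∈ D, adj0 v u = true ∧ Good ((D \ {u}) ∪ {v}) := by
  obtain ⟨a, b, c, h1, h2, h3, h4, rfl⟩ := h
  simp only [mem_insert, mem_singleton, not_or] at hv
  obtain ⟨hva, hvb, hvc⟩ := hv
  rcases step3 a b c h1 h2 h3 h4 v hva hvb hvc with ⟨h5, h6⟩ | ⟨h5, h6⟩ | ⟨h5, h6⟩
  · refine ⟨a, by simp, h5, v, b, c, hvb, hvc, h3, h6, ?_⟩
    ext x
    simp only [mem_union, mem_sdiff, mem_insert, mem_singleton]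
    constructor
    · rintro (⟨h | h | h, h'⟩ | h)
      · exact absurd h h'
      · exact Or.inr (Or.inl h)
      · exact Or.inr (Or.inr h)
      · exact Or.inl h
    · rintro (h | h | h)
      · exact Or.inr h
      · exact Or.inl ⟨Or.inr (Or.inl h), fun h' => h1 (h'.symm.trans h)⟩
      · exact Or.inl ⟨Or.inr (Or.inr h), fun h' => h2 (h'.symm.trans h)⟩
  · refine ⟨b, by simp, h5, a, v, c, Ne.symm hva, h2, hvc, h6, ?_⟩
    ext x
    simp only [mem_union, mem_sdiff, mem_insert, mem_singleton]
    constructor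
    · rintro (⟨h | h | h, h'⟩ | h)
      · exact Or.inl h
      · exact absurd h h'
      · exact Or.inr (Or.inr h)
      · exact Or.inr (Or.inl h)
    · rintro (h | h | h)
      · exact Or.inl ⟨Or.inl h, fun h' => h1 (h.symm.trans h')⟩
      · exact Or.inr h
      · exact Or.inl ⟨Or.inr (Or.inr h), fun h' => h3 (h'.symm.trans h)⟩
  · refine ⟨c, by simp, h5, a, b, v, h1, Ne.symm hva, Ne.symm hvb, h6, ?_⟩
    ext x
    simp only [mem_union, mem_sdiff, mem_insert, mem_singleton]
    constructor
    · rintro (⟨h | h | h, h'⟩ | h)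
      · exact Or.inl h
      · exact Or.inr (Or.inl h)
      · exact absurd h h'
      · exact Or.inr (Or.inr h)
    · rintro (h | h | h)
      · exact Or.inl ⟨Or.inl h, fun h' => h2 (h.symm.trans h')⟩
      · exact Or.inl ⟨Or.inr (Or.inl h), fun h' => h3 (h.symm.trans h')⟩
      · exact Or.inr h

/-- the part of `D` in the copy of `G₀` in the layer `i` -/
def layer (i : Fin 2) (D : Finset (Fin 11 × Fin 2)) : Finset (Fin 10) :=
  univ.filter fun x => (x.castSucc, i) ∈ D

theorem mem_layer {i : Fin 2} {D : Finset (Fin 11 × Fin 2)} {x : Fin 10} :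
    x ∈ layer i D ↔ (x.castSucc, i) ∈ D := by simp [layer]

/-- the family of the sets of seven guards -/
def fam : Set (Finset (Fin 11 × Fin 2)) :=
  {D | (∀ i, Good (layer i D)) ∧ ∃! i : Fin 2, (Fin.last 10, i) ∈ D}

theorem card_eq (D : Finset (Fin 11 × Fin 2)) :
    D.card = (layer 0 D).card + (layer 1 D).card +
      (univ.filter fun i : Fin 2 => (Fin.last 10, i) ∈ D).card := by
  have h1 : D.card = ∑ p : Fin 11 × Fin 2, if p ∈ D then 1 else 0 := by simp
  have h2 : ∀ i : Fin 2, (layer i D).card = ∑ x : Fin 10, if (x.castSucc, i) ∈ D then 1 else 0 := by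
    intro i
    rw [layer, card_filter]
  rw [h1, h2, h2, card_filter, Fintype.sum_prod_type, Fin.sum_univ_castSucc]
  simp only [Fin.sum_univ_two]
  rw [sum_add_distrib]

theorem adj_castSucc : ∀ a b : Fin 10, adj0 a b = true → gr.Adj a.castSucc b.castSucc := by
  decide

theorem fam_eternal : IsEternalFamily prism 7 fam := by
  refine ⟨?_, ?_, ?_⟩
  · refine ⟨{(0, 0), (1, 0), (2, 0), (0, 1), (1, 1), (2, 1), (10, 0)}, fun i => ?_, 0, ?_, ?_⟩
    · refine ⟨0, 1, 2, by decide, by decide, by decide, by decide, ?_⟩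
      fin_cases i <;> decide
    · decide
    · intro i hi
      revert i
      decide
  · intro D hD
    obtain ⟨hL, i, hi, hiu⟩ := hD
    constructor
    · rw [card_eq, good_card (hL 0), good_card (hL 1)]
      have : (univ.filter fun i : Fin 2 => (Fin.last 10, i) ∈ D) = {i} := by
        ext j
        simp only [mem_filter, mem_univ, true_and, mem_singleton]
        exact ⟨fun h => hiu j h, fun h => h ▸ hi⟩
      rw [this, card_singleton]
    · rintro ⟨x, j⟩
      refine Fin.lastCases ?_ (fun x => ?_) x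
      · by_cases h : j = i
        · left; rw [h]; exact hi
        · right
          exact ⟨(Fin.last 10, i), hi, by
            simp only [SimpleGraph.boxProd_adj, SimpleGraph.top_adj]
            right
            exact ⟨h, trivial⟩⟩
      · rcases good_dom (hL j) x with h | ⟨u, hu, huv⟩
        · exact Or.inl (mem_layer.1 h)
        · right
          refine ⟨(u.castSucc, j), mem_layer.1 hu, ?_⟩
          simp only [SimpleGraph.boxProd_adj, SimpleGraph.top_adj]
          left
          exact ⟨adj_castSucc x u huv, trivial⟩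
  · rintro D ⟨hL, i, hi, hiu⟩ ⟨x, j⟩
    refine Fin.lastCases ?_ (fun x => ?_) x
    · intro hv
      have hne : j ≠ i := fun h => hv (h ▸ hi)
      refine ⟨(Fin.last 10, i), hi, ?_, ?_, ?_⟩
      · simp only [SimpleGraph.boxProd_adj, SimpleGraph.top_adj]
        right
        exact ⟨hne, trivial⟩
      · intro k
        convert hL k using 1
        ext y
        rw [mem_layer, mem_layer]
        have h1 : y.castSucc ≠ Fin.last 10 := Fin.castSucc_ne_last y
        simp only [mem_union, mem_sdiff, mem_singleton, Prod.mk.injEq, h1, false_and, not_false_iff,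
          and_true, or_false]
      · refine ⟨j, by simp, ?_⟩
        intro k hk
        simp only [mem_union, mem_sdiff, mem_singleton, Prod.mk.injEq, true_and] at hk
        rcases hk with ⟨h1, h2⟩ | h
        · exact absurd (hiu k h1) h2
        · exact h
    · intro hv
      have hv' : x ∉ layer j D := fun h => hv (mem_layer.1 h)
      obtain ⟨u, hu, hxu, hg⟩ := good_step (hL j) x hv'
      refine ⟨(u.castSucc, j), mem_layer.1 hu, ?_, ?_, ?_⟩
      · simp only [SimpleGraph.boxProd_adj, SimpleGraph.top_adj]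
        left
        exact ⟨adj_castSucc x u hxu, trivial⟩
      · intro k
        by_cases hk : k = j
        · subst hk
          convert hg using 1
          ext y
          rw [mem_layer]
          simp only [mem_union, mem_sdiff, mem_singleton, Prod.mk.injEq, and_true, mem_layer,
            Fin.castSucc_inj]
        · convert hL k using 1
          ext y
          rw [mem_layer, mem_layer]
          simp [hk]
      · refine ⟨i, ?_, ?_⟩
        · have h1 : Fin.last 10 ≠ u.castSucc := (Fin.castSucc_ne_last u).symm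
          simp only [mem_union, mem_sdiff, mem_singleton, Prod.mk.injEq, h1, false_and,
            not_false_iff, and_true]
          exact Or.inl hi
        · intro k hk
          simp only [mem_union, mem_sdiff, mem_singleton, Prod.mk.injEq] at hk
          rcases hk with ⟨h1, h2⟩ | ⟨h, -⟩
          · exact hiu k h1
          · exact absurd h.symm (Fin.castSucc_ne_last x)

/-- **Result.** There is a graph `G` (on eleven vertices) with `θ(G) = γ^∞(G)` and
`γ^∞(G □ K₂) < θ(G □ K₂)`. -/
theorem result : ∃ G : SimpleGraph (Fin 11), cliqueCover G = eternalNum G ∧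
    eternalNum (G □ (⊤ : SimpleGraph (Fin 2))) < cliqueCover (G □ (⊤ : SimpleGraph (Fin 2))) := by
  refine ⟨gr, cliqueCover_gr.trans eternalNum_gr.symm, ?_⟩
  have h1 : eternalNum prism ≤ 7 := Nat.sInf_le ⟨by norm_num, fam, fam_eternal⟩
  exact lt_of_le_of_lt h1 (lt_of_lt_of_le (by norm_num) eight_le)

end Pool.Agent.Results.MP_349597_co.PendantPrism
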